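import Pool.Agent.H220.IC.Stm

/-! MP_a21e0e_an, Q2 (project IC of helper220): failure of interlaced concentration, the final step.
Adapted from the library module `K4H42/ICJ`. -/

set_option autoImplicit false

namespace Pool.Agent.H787.IC

open Finset Pool.Agent.H220.IC

/-- Extension of a tuple to a sequence. -/
def ext {k : ℕ} (hk : 0 < k) (n : Fin k ↪o ℕ) (p : ℕ) : ℕ := n ⟨min p (k - 1), by omega⟩

theorem ext_mono {k : ℕ} (hk : 0 < k) (n : Fin k ↪o ℕ) : Monotone (ext hk n) := by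
  intro i j hij
  refine n.monotone ?_
  rw [Fin.mk_le_mk]
  omega

theorem ext_lt {k : ℕ} (hk : 0 < k) (n : Fin k ↪o ℕ) (p q : ℕ) (hpq : p < q) (hq : q < k) :
    ext hk n p < ext hk n q := by
  refine n.strictMono ?_
  rw [Fin.mk_lt_mk]
  omega

theorem ext_fin {k : ℕ} (hk : 0 < k) (n : Fin k ↪o ℕ) (i : Fin k) : ext hk n i = n i := by
  unfold ext
  congr 1
  ext
  have := i.2
  simp only
  omega

theorem hamming_eq {k : ℕ} (hk : 0 < k) (n m : Fin k ↪o ℕ) :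
    ∑ p ∈ range k, (if ext hk n p ≠ ext hk m p then (1 : ℝ) else 0) = hamming n m := by
  rw [← Fin.sum_univ_eq_sum_range (fun p => if ext hk n p ≠ ext hk m p then (1 : ℝ) else 0) k]
  unfold hamming
  rw [card_filter]
  push_cast
  refine sum_congr rfl fun i _ => ?_
  rw [ext_fin, ext_fin]

theorem rpow_bound (q : ℝ) (hq : 0 ≤ q) :
    (3 * q ^ 12) ^ (1 / (4 / 3 : ℝ)) ≤ 3 * q ^ 9 := by
  rw [Real.mul_rpow (by norm_num) (by positivity)]
  have h1 : (q ^ 12) ^ (1 / (4 / 3 : ℝ)) = q ^ 9 := by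
    rw [← Real.rpow_natCast q 12, ← Real.rpow_mul hq, ← Real.rpow_natCast q 9]
    norm_num
  have h2 : (3 : ℝ) ^ (1 / (4 / 3 : ℝ)) ≤ 3 := by
    calc (3 : ℝ) ^ (1 / (4 / 3 : ℝ)) ≤ (3 : ℝ) ^ (1 : ℝ) :=
          Real.rpow_le_rpow_of_exponent_le (by norm_num) (by norm_num)
      _ = 3 := Real.rpow_one 3
  rw [h1]
  exact mul_le_mul_of_nonneg_right h2 (by positivity)

theorem s_conc (lip : S_lip) (cert : S_cert) : S_conc := by
  rintro ⟨C, hC, h⟩
  obtain ⟨q, hq⟩ := exists_nat_gt (12 * C + 2)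
  have hq0 : (0 : ℝ) < q := by linarith
  have hq1 : 1 ≤ q := by
    have : 0 < q := by exact_mod_cast hq0
    omega
  set N := q ^ 2 with hN
  have hN1 : 1 ≤ N := Nat.one_le_pow _ _ hq1
  set k := N ^ 6 + 2 * N ^ 6 with hk
  have hN6 : 0 < N ^ 6 := by positivity
  have hk0 : 0 < k := by omega
  have hlek : N ^ 6 ≤ k := Nat.le_add_right _ _
  let f : (Fin k ↪o ℕ) → XT := fun n => FF N (ext hk0 n)
  have h2mem : (2 : ℝ) ∈ lipBounds f := by
    refine ⟨by norm_num, fun n m => ?_⟩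
    rw [← hamming_eq hk0]
    refine lip N _ _ hN1 (ext_mono hk0 n) (ext_mono hk0 m) ?_
    intro p hp r hr he
    simp only [coe_range, Set.mem_Iio] at hp hr
    by_contra hne
    rcases lt_or_gt_of_ne hne with h1 | h1
    · have := ext_lt hk0 n p r h1 (lt_of_lt_of_le hr hlek)
      omega
    · have := ext_lt hk0 n r p h1 (lt_of_lt_of_le hp hlek)
      omega
  have hlip : lipConst f ≤ 2 := csInf_le ⟨0, fun L hL => hL.1⟩ h2mem
  obtain ⟨M, hM, hb⟩ := h k f ⟨2, h2mem⟩ 1 one_pos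
  have hsm : StrictMono (Nat.nth (· ∈ M)) := Nat.nth_strictMono hM
  let n : Fin k ↪o ℕ := OrderEmbedding.ofStrictMono (fun i => Nat.nth (· ∈ M) (2 * i))
    (fun i j hij => hsm (by
      have : (i : ℕ) < j := hij
      omega))
  let m : Fin k ↪o ℕ := OrderEmbedding.ofStrictMono (fun i => Nat.nth (· ∈ M) (2 * i + 1))
    (fun i j hij => hsm (by
      have : (i : ℕ) < j := hij
      omega))
  have hn : ∀ i, n i = Nat.nth (· ∈ M) (2 * i) := fun _ => rfl
  have hm : ∀ i, m i = Nat.nth (· ∈ M) (2 * i + 1) := fun _ => rfl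
  have hmain := hb n m (fun i => Nat.nth_mem_of_infinite hM _)
    (fun i => Nat.nth_mem_of_infinite hM _) (by
      refine ⟨fun i => ?_, fun i j hij => ?_⟩
      · rw [hn, hm]; exact hsm (by omega)
      · rw [hn, hm]
        have : (i : ℕ) < j := hij
        exact hsm (by omega))
  obtain ⟨ψ, hψ1, hψ2, hψ3⟩ := cert N (ext hk0 n) hN1
    (fun p r hpr hr => ext_lt hk0 n p r hpr hr)
  have hzero : ψ (f m) = 0 := by
    change ψ (FF N (ext hk0 m)) = 0
    unfold FF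
    rw [map_sum]
    refine sum_eq_zero fun p hp => ?_
    unfold row
    rw [map_sum]
    refine sum_eq_zero fun i _ => ?_
    rw [map_smul]
    have h1 : ψ (del (ext hk0 m p) (ext hk0 m (N ^ 6 + i))) = 0 := by
      refine hψ3 _ (fun r hr => ?_) _
      rw [mem_range] at hp
      have hpk : p < k := lt_of_lt_of_le hp hlek
      have hrk : r < k := lt_of_lt_of_le hr hlek
      have e1 : ext hk0 m p = m ⟨p, hpk⟩ := ext_fin hk0 m ⟨p, hpk⟩
      have e2 : ext hk0 n r = n ⟨r, hrk⟩ := ext_fin hk0 n ⟨r, hrk⟩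
      rw [e1, e2, hm, hn]
      intro he
      have := hsm.injective he
      simp only at this
      omega
    change _ * ψ (del (ext hk0 m p) (ext hk0 m (N ^ 6 + i))) = 0
    rw [h1, mul_zero]
  have hlow : (q : ℝ) ^ 10 / 2 ≤ ‖f n - f m‖ := by
    have h1 : ψ (f n - f m) = (q : ℝ) ^ 10 / 2 := by
      rw [map_sub, hzero, sub_zero]
      have h2 : ψ (f n) = (N : ℝ) ^ 5 / 2 := hψ2
      rw [h2, hN]
      push_cast
      ring
    rw [← h1]
    calc ψ (f n - f m) ≤ ‖ψ (f n - f m)‖ := le_abs_self _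
      _ ≤ ‖ψ‖ * ‖f n - f m‖ := ψ.le_opNorm _
      _ ≤ 1 * ‖f n - f m‖ := mul_le_mul_of_nonneg_right hψ1 (norm_nonneg _)
      _ = ‖f n - f m‖ := one_mul _
  have hkr : (k : ℝ) ^ (1 / (4 / 3 : ℝ)) ≤ 3 * (q : ℝ) ^ 9 := by
    have e : (k : ℝ) = 3 * (q : ℝ) ^ 12 := by
      rw [hk, hN]
      push_cast
      ring
    rw [e]
    exact rpow_bound q hq0.le
  have h1 : (q : ℝ) ^ 10 / 2 ≤ C * 2 * (3 * (q : ℝ) ^ 9) + 1 := by
    refine hlow.trans (hmain.trans ?_)
    have h2 : C * lipConst f * (k : ℝ) ^ (1 / (4 / 3 : ℝ)) ≤ C * 2 * (3 * (q : ℝ) ^ 9) :=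
      mul_le_mul (mul_le_mul_of_nonneg_left hlip hC.le) hkr (by positivity) (by positivity)
    linarith
  have hq1' : (1 : ℝ) ≤ q := by exact_mod_cast hq1
  have h9 : (1 : ℝ) ≤ (q : ℝ) ^ 9 := one_le_pow₀ hq1'
  have h3 : (q : ℝ) / 2 ≤ 6 * C + 1 := by
    have h4 : (q : ℝ) / 2 * (q : ℝ) ^ 9 ≤ (6 * C + 1) * (q : ℝ) ^ 9 := by
      have e : (6 * C + 1) * (q : ℝ) ^ 9 = C * 2 * (3 * (q : ℝ) ^ 9) + (q : ℝ) ^ 9 := by ring
      have e' : (q : ℝ) / 2 * (q : ℝ) ^ 9 = (q : ℝ) ^ 10 / 2 := by ring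
      rw [e, e']
      linarith
    exact le_of_mul_le_mul_right h4 (by positivity)
  linarith

end Pool.Agent.H787.IC
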